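import Pool.Agent.Y990.OA.Stm3
import Pool.Agent.Y288.PL.Tight
import Pool.Agent.H974R2.BK

set_option autoImplicit false

open MeasureTheory Set

/-!
Part BK2 of the project OA: two crossing clusters, by the inequality of van den Berg and Kesten.
-/

namespace Pool.Agent.Y455.OA

open Pool.Agent.W783.PC (pm DepOn Inc)
open Pool.Agent.W424.PC (cfgOf)
open Pool.Agent.Y990.CB
open Pool.Agent.Y990.OA

noncomputable section

variable {d : ℕ}

lemma cfgOf_iff {ι : Type} (T : Finset ι) (c : ι) : cfgOf T c = true ↔ c ∈ T := by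
  classical
  simp [cfgOf]

open scoped Classical in
/-- The open coordinates of the cluster of `x`. -/
def Kx (M : Mod d) (F : Finset M.ι) (R : Set (Z d)) (x : Z d) : Finset M.ι :=
  F.filter (fun c => ∃ u v, (G M (cfgOf F) R).Adj u v ∧ (G M (cfgOf F) R).Reachable x u ∧
    c ∈ M.nd u v)

lemma Kx_reach (M : Mod d) (F : Finset M.ι) (R : Set (Z d)) (x : Z d) :
    ∀ {u v : Z d}, (G M (cfgOf F) R).Walk u v → (G M (cfgOf F) R).Reachable x u →
      (G M (cfgOf (Kx M F R x)) R).Reachable u v := by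
  classical
  intro u v q
  induction q with
  | nil => exact fun _ => SimpleGraph.Reachable.refl _
  | cons h q ih =>
    intro hx
    refine SimpleGraph.Reachable.trans (SimpleGraph.Adj.reachable ?_)
      (ih (hx.trans h.reachable))
    refine ⟨h.1, h.2.1, h.2.2.1, fun c hc => ?_⟩
    rw [cfgOf_iff]
    unfold Kx
    rw [Finset.mem_filter]
    exact ⟨(cfgOf_iff F c).1 (h.2.2.2 c hc), _, _, h, hx, hc⟩

lemma Kx_disj (M : Mod d) (F : Finset M.ι) (R : Set (Z d)) (x y : Z d)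
    (hxy : ¬ (G M (cfgOf F) R).Reachable x y) : Disjoint (Kx M F R x) (Kx M F R y) := by
  classical
  rw [Finset.disjoint_left]
  intro c hc hc'
  unfold Kx at hc hc'
  rw [Finset.mem_filter] at hc hc'
  obtain ⟨-, u, v, h1, h2, h3⟩ := hc
  obtain ⟨-, u', v', h1', h2', h3'⟩ := hc'
  have h4 := h2.trans h1.reachable
  have h4' := h2'.trans h1'.reachable
  apply hxy
  rcases M.loc u v u' v' c h3 h3' with h | h | h | h
  · rw [h] at h2'
    exact h2.trans h2'.symm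
  · rw [h] at h2'
    exact h4.trans h2'.symm
  · rw [h] at h4'
    exact h2.trans h4'.symm
  · rw [h] at h4'
    exact h4.trans h4'.symm

lemma one_sub_hol (M : Mod d) (p : unitInterval) (k n : ℕ) :
    1 - hol M p k n = (mu M p).real (Lk M (Bo 0 n) (Bo 0 k) (Fr 0 n)) := by
  unfold hol
  have e1 : {ω | ω ∉ Lk M (Bo 0 n) (Bo 0 k) (Fr 0 n)} = (Lk M (Bo 0 n) (Bo 0 k) (Fr 0 n))ᶜ := rfl
  rw [e1, probReal_compl_eq_one_sub (Lk_meas M _ _ _)]
  ring

/-- BK2 -/
theorem bk2 : S_bk2 := by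
  classical
  intro d M p k n
  have hok : H974.Ok (fun _ : M.ι => (p : ℝ)) := fun _ => ⟨p.2.1, p.2.2⟩
  have hT : DepOn (Ta M 0 k n) ((Tf M n : Finset M.ι) : Set M.ι) := by
    rw [coe_Tf]
    exact Ta_dep M 0 k n
  have hL : DepOn (Lk M (Bo 0 n) (Bo 0 k) (Fr 0 n)) ((Tf M n : Finset M.ι) : Set M.ι) := by
    rw [coe_Tf]
    exact Lk_dep M _ _ _
  have hI : H974.IncrE (Tf M n) (fun F => cfgOf F ∈ Lk M (Bo 0 n) (Bo 0 k) (Fr 0 n)) := by
    intro F F' h1 _ h2
    refine Lk_inc M _ _ _ _ _ (fun c hc => ?_) h2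
    rw [cfgOf_iff] at hc ⊢
    exact h1 hc
  rw [one_sub_hol]
  unfold mu
  rw [Pool.Agent.Y288.PL.pm_eq_Pr (fun _ => p) hT, Pool.Agent.Y288.PL.pm_eq_Pr (fun _ => p) hL, sq]
  refine le_trans ?_ (H974.bk hok hI hI)
  refine H974.Pr_mono hok fun F hF h => ?_
  obtain ⟨x, hx, y, hy, ⟨x', hx', ⟨qx⟩⟩, ⟨y', hy', ⟨qy⟩⟩, hxy⟩ := h
  refine ⟨Kx M F (Bo 0 n) x, Kx M F (Bo 0 n) y, Finset.filter_subset _ _,
    Finset.filter_subset _ _, Kx_disj M F _ x y hxy, ?_, ?_⟩
  · exact ⟨x, hx, x', hx', Kx_reach M F _ x qx (SimpleGraph.Reachable.refl _)⟩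
  · exact ⟨y, hy, y', hy', Kx_reach M F _ y qy (SimpleGraph.Reachable.refl _)⟩

end

end Pool.Agent.Y455.OA
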